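import Pool.Agent.Helper684.GX.Cov.C10

attribute [local instance] Pool.Agent.Helper684.GX.Nev.leafInst

set_option autoImplicit false

open Set Metric Filter Topology MeasureTheory
open scoped Manifold ComplexConjugate
open Pool.Agent.Helper684.GX.Nev

namespace Pool.Agent.Helper684.GX.Cov

variable {E M : Type*} [NormedAddCommGroup E] [NormedSpace ℂ E] [TopologicalSpace M]
  [ChartedSpace E M] {F : Foliation E M}


theorem ext_apply (ψ : Disc F) {z : ℂ} (hz : z ∈ ball (0 : ℂ) 1) :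
    ext ψ z = ((ψ ⟨z, hz⟩ : Reg F) : M) := by
  unfold ext
  rw [dif_pos hz]

theorem exists_ext {ψ : ℂ → M} (hψ : F.IsTangentDisc ψ) : ∃ Ψ : Disc F, EqOn (ext Ψ) ψ (ball 0 1) := by
  refine ⟨⟨fun z => ⟨ψ z, (hψ.2 z z.2).1⟩, ?_⟩, fun z hz => ?_⟩
  · refine Continuous.subtype_mk ?_ _
    rw [continuous_iff_continuousAt]
    intro z
    exact (hψ.contAt z.2).comp continuous_subtype_val.continuousAt
  · rw [ext_apply _ hz]
    rfl

/-- convergence in the space of discs gives continuous convergence -/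
theorem tendsto_ext {ι : Type*} {l : Filter ι} {Ψ : ι → Disc F} {ψ : Disc F}
    (h : Tendsto Ψ l (𝓝 ψ)) {s : ι → ℂ} {z : ℂ} (hz : z ∈ ball (0 : ℂ) 1)
    (hs : Tendsto s l (𝓝 z)) : Tendsto (fun i => ext (Ψ i) (s i)) l (𝓝 (ext ψ z)) := by
  classical
  haveI : LocallyCompactSpace (ball (0 : ℂ) 1) :=
    isOpen_ball.isOpenEmbedding_subtypeVal.locallyCompactSpace
  have hev : ∀ᶠ i in l, s i ∈ ball (0 : ℂ) 1 := hs (isOpen_ball.mem_nhds hz)
  set t : ι → ball (0 : ℂ) 1 := fun i =>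
    if h : s i ∈ ball (0 : ℂ) 1 then ⟨s i, h⟩ else ⟨0, mem_ball_self one_pos⟩ with ht
  have ht1 : Tendsto t l (𝓝 ⟨z, hz⟩) := by
    rw [tendsto_subtype_rng]
    refine hs.congr' ?_
    filter_upwards [hev] with i hi
    rw [ht]
    simp only [dif_pos hi]
  have hcont : Continuous fun p : Disc F × ball (0 : ℂ) 1 => p.1 p.2 := continuous_eval
  have h2 : Tendsto (fun i => (Ψ i) (t i)) l (𝓝 (ψ ⟨z, hz⟩)) :=
    (hcont.tendsto (ψ, ⟨z, hz⟩)).comp (h.prodMk_nhds ht1)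
  have h3 : Tendsto (fun i => (((Ψ i) (t i) : Reg F) : M)) l (𝓝 ((ψ ⟨z, hz⟩ : Reg F) : M)) :=
    (continuous_subtype_val.tendsto _).comp h2
  rw [ext_apply _ hz]
  refine h3.congr' ?_
  filter_upwards [hev] with i hi
  rw [ext_apply _ hi, ht]
  simp only [dif_pos hi]


end Pool.Agent.Helper684.GX.Cov
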