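import Pool.Agent.Helper684.GX.Cov.C11

attribute [local instance] Pool.Agent.Helper684.GX.Nev.leafInst

set_option autoImplicit false

open Set Metric Filter Topology MeasureTheory
open scoped Manifold ComplexConjugate
open Pool.Agent.Helper684.GX.Nev

namespace Pool.Agent.Helper684.GX.Cov

variable {E M : Type*} [NormedAddCommGroup E] [NormedSpace ℂ E] [TopologicalSpace M]
  [ChartedSpace E M] {F : Foliation E M}


theorem ext_nhds_aux (ψ : Disc F) {O : Set M} (hO : IsOpen O) {z : ℂ} (hz : z ∈ ball (0 : ℂ) 1)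
    (h : ext ψ z ∈ O) : ∃ r > 0, closedBall z r ⊆ ball 0 1 ∧ ∀ w ∈ closedBall z r, ext ψ w ∈ O := by
  have hc : Continuous (fun w : ball (0 : ℂ) 1 => ((ψ w : Reg F) : M)) :=
    continuous_subtype_val.comp ψ.continuous
  have h1 : IsOpen ((fun w : ball (0 : ℂ) 1 => ((ψ w : Reg F) : M)) ⁻¹' O) := hO.preimage hc
  have h2 : IsOpen (Subtype.val '' ((fun w : ball (0 : ℂ) 1 => ((ψ w : Reg F) : M)) ⁻¹' O)) :=
    isOpen_ball.isOpenMap_subtype_val _ h1
  have h3 : z ∈ Subtype.val '' ((fun w : ball (0 : ℂ) 1 => ((ψ w : Reg F) : M)) ⁻¹' O) := by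
    refine ⟨⟨z, hz⟩, ?_, rfl⟩
    show ((ψ ⟨z, hz⟩ : Reg F) : M) ∈ O
    rw [← ext_apply ψ hz]
    exact h
  obtain ⟨r, hr, hr2⟩ := Metric.isOpen_iff.1 h2 z h3
  have h4 : closedBall z (r / 2) ⊆ ball z r := closedBall_subset_ball (by linarith)
  refine ⟨r / 2, by linarith, ?_, ?_⟩
  · intro w hw
    obtain ⟨w', _, hw2⟩ := hr2 (h4 hw)
    rw [← hw2]
    exact w'.2
  · intro w hw
    obtain ⟨w', hw1, hw2⟩ := hr2 (h4 hw)
    have hw3 : w ∈ ball (0 : ℂ) 1 := by
      rw [← hw2]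
      exact w'.2
    rw [ext_apply ψ hw3]
    have hw4 : w' = ⟨w, hw3⟩ := Subtype.ext hw2
    rw [← hw4]
    exact hw1

theorem ext_eventually_aux {ι : Type*} {l : Filter ι} {Ψ : ι → Disc F} {ψ : Disc F}
    (h : Tendsto Ψ l (𝓝 ψ)) {O : Set M} (hO : IsOpen O) {z : ℂ} {r : ℝ}
    (hsub : closedBall z r ⊆ ball 0 1) (hmap : ∀ w ∈ closedBall z r, ext ψ w ∈ O) :
    ∀ᶠ i in l, ∀ w ∈ closedBall z r, ext (Ψ i) w ∈ O := by
  set K : Set (ball (0 : ℂ) 1) := Subtype.val ⁻¹' (closedBall z r) with hK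
  have hKc : IsCompact K := by
    rw [Subtype.isCompact_iff, hK, Subtype.image_preimage_coe, inter_eq_right.2 hsub]
    exact isCompact_closedBall z r
  have hO' : IsOpen (Subtype.val ⁻¹' O : Set (Reg F)) := hO.preimage continuous_subtype_val
  have hm : MapsTo ψ K (Subtype.val ⁻¹' O : Set (Reg F)) := by
    intro w hw
    have h1 := hmap w.1 hw
    rw [ext_apply ψ w.2] at h1
    exact h1
  filter_upwards [h.eventually (ContinuousMap.eventually_mapsTo hKc hO' hm)] with i hi w hw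
  rw [ext_apply (Ψ i) (hsub hw)]
  exact hi (show (⟨w, hsub hw⟩ : ball (0 : ℂ) 1) ∈ K from hw)

/-- convergence in the space of discs: local uniform convergence in the coordinates -/
theorem tendsto_chart {ι : Type*} {l : Filter ι} {Ψ : ι → Disc F} {ψ : Disc F}
    (h : Tendsto Ψ l (𝓝 ψ)) (B : FBox F) {z₀ : ℂ} (hz₀ : z₀ ∈ ball (0 : ℂ) 1)
    (hB : ext ψ z₀ ∈ B.half) : ∃ δ > 0, ball z₀ δ ⊆ ball 0 1 ∧
      (∀ᶠ i in l, ∀ z ∈ ball z₀ δ, ext (Ψ i) z ∈ B.half) ∧ (∀ z ∈ ball z₀ δ, ext ψ z ∈ B.half) ∧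
      TendstoUniformlyOn (fun i z => B.e (ext (Ψ i) z)) (fun z => B.e (ext ψ z)) l
        (ball z₀ δ) := by
  obtain ⟨δ, hδ, hsub, hmap⟩ := ext_nhds_aux ψ (isOpen_half B) hz₀ hB
  refine ⟨δ, hδ, ball_subset_closedBall.trans hsub, ?_, fun z hz => hmap z (ball_subset_closedBall hz), ?_⟩
  · filter_upwards [ext_eventually_aux h (isOpen_half B) hsub hmap] with i hi z hz
    exact hi z (ball_subset_closedBall hz)
  · have hloc : TendstoLocallyUniformlyOn (fun i z => B.e (ext (Ψ i) z)) (fun z => B.e (ext ψ z)) l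
        (closedBall z₀ δ) := by
      rw [Metric.tendstoLocallyUniformlyOn_iff]
      intro ε hε x hx
      set O : Set M := B.half ∩ (B.e.source ∩ B.e ⁻¹' (ball (B.e (ext ψ x)) (ε / 2))) with hOdef
      have hO : IsOpen O := by
        refine (isOpen_half B).inter ?_
        exact B.e.continuousOn.isOpen_inter_preimage B.e.open_source isOpen_ball
      have hxO : ext ψ x ∈ O := by
        have h1 := hmap x hx
        exact ⟨h1, h1.1, mem_ball_self (by linarith)⟩
      obtain ⟨r, hr, hrsub, hrmap⟩ := ext_nhds_aux ψ hO (hsub hx) hxO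
      refine ⟨closedBall x r, mem_nhdsWithin_of_mem_nhds (closedBall_mem_nhds x hr), ?_⟩
      filter_upwards [ext_eventually_aux h hO hrsub hrmap] with i hi y hy
      have h1 : dist (B.e (ext (Ψ i) y)) (B.e (ext ψ x)) < ε / 2 := (hi y hy).2.2
      have h2 : dist (B.e (ext ψ y)) (B.e (ext ψ x)) < ε / 2 := (hrmap y hy).2.2
      calc dist (B.e (ext ψ y)) (B.e (ext (Ψ i) y))
          ≤ dist (B.e (ext ψ y)) (B.e (ext ψ x)) + dist (B.e (ext ψ x)) (B.e (ext (Ψ i) y)) :=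
            dist_triangle _ _ _
        _ < ε / 2 + ε / 2 := by
            rw [dist_comm (B.e (ext ψ x))]
            linarith
        _ = ε := by ring
    have huni := (tendstoLocallyUniformlyOn_iff_tendstoUniformlyOn_of_compact
      (isCompact_closedBall z₀ δ)).1 hloc
    exact huni.mono ball_subset_closedBall


end Pool.Agent.Helper684.GX.Cov
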