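import Pool.Agent.Helper684.GX.Cov.C13

attribute [local instance] Pool.Agent.Helper684.GX.Nev.leafInst

set_option autoImplicit false

open Set Metric Filter Topology MeasureTheory
open scoped Manifold ComplexConjugate
open Pool.Agent.Helper684.GX.Nev

namespace Pool.Agent.Helper684.GX.Cov

variable {E M : Type*} [NormedAddCommGroup E] [NormedSpace ℂ E] [TopologicalSpace M]
  [ChartedSpace E M] {F : Foliation E M}


/-- Equicontinuity of a bounded family of holomorphic functions. -/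
theorem equicont_aux {ι : Type*} {W : Set ℂ} (hWo : IsOpen W) (G : ι → ℂ → ℂ)
    (hF : ∀ n, DifferentiableOn ℂ (G n) W) (K : ℝ) (hM : ∀ n, ∀ z ∈ W, ‖G n z‖ ≤ K) (hM0 : 0 ≤ K)
    {x : ℂ} (hx : x ∈ W) {ε : ℝ} (hε : 0 < ε) :
    ∀ᶠ y in 𝓝 x, ∀ n, dist (G n y) (G n x) < ε := by
  obtain ⟨r, hr, hrW⟩ := Metric.isOpen_iff.1 hWo x hx
  have hc : 0 < (2 * K + 1) / r := by positivity
  have h1 : ∀ᶠ y in 𝓝 x, dist y x < min r (ε / ((2 * K + 1) / r)) :=
    Metric.ball_mem_nhds x (by positivity)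
  filter_upwards [h1] with y hy n
  have hy1 : y ∈ ball x r := lt_of_lt_of_le hy (min_le_left _ _)
  have hy2 : dist y x < ε / ((2 * K + 1) / r) := lt_of_lt_of_le hy (min_le_right _ _)
  have hmaps : MapsTo (G n) (ball x r) (ball (G n x) (2 * K + 1)) := by
    intro w hw
    rw [mem_ball, dist_eq_norm]
    calc ‖G n w - G n x‖ ≤ ‖G n w‖ + ‖G n x‖ := norm_sub_le _ _
      _ ≤ K + K := add_le_add (hM n w (hrW hw)) (hM n x hx)
      _ < 2 * K + 1 := by linarith
  have h2 := Complex.dist_le_div_mul_dist_of_mapsTo_ball ((hF n).mono hrW)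
    (hmaps.mono_right ball_subset_closedBall) hy1
  refine lt_of_le_of_lt h2 ?_
  rw [lt_div_iff₀ hc] at hy2
  linarith

/-- Montel along an ultrafilter. -/
theorem montel_aux {ι : Type*} {W : Set ℂ} (hWo : IsOpen W) (G : ι → ℂ → ℂ)
    (hF : ∀ n, DifferentiableOn ℂ (G n) W) (K : ℝ) (hK : 0 ≤ K) (hM : ∀ n, ∀ z ∈ W, ‖G n z‖ ≤ K)
    (𝒰 : Ultrafilter ι) :
    ∃ Φ : ℂ → ℂ, DifferentiableOn ℂ Φ W ∧
      ∀ z ∈ W, Tendsto (fun i => G i z) (𝒰 : Filter ι) (𝓝 (Φ z)) := by
  have h1 : ∀ z, ∃ v : ℂ, z ∈ W → Tendsto (fun n => G n z) 𝒰 (𝓝 v) := by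
    intro z
    by_cases hz : z ∈ W
    · have hcomp := isCompact_closedBall (0 : ℂ) K
      have hle : ((𝒰.map (fun n => G n z) : Ultrafilter ℂ) : Filter ℂ) ≤ 𝓟 (closedBall 0 K) := by
        rw [le_principal_iff, Ultrafilter.coe_map, Filter.mem_map]
        refine Filter.mem_of_superset Filter.univ_mem ?_
        intro n _
        show G n z ∈ closedBall 0 K
        rw [mem_closedBall_zero_iff]
        exact hM n z hz
      obtain ⟨v, -, hv⟩ := hcomp.ultrafilter_le_nhds _ hle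
      exact ⟨v, fun _ => hv⟩
    · exact ⟨0, fun h => absurd h hz⟩
  choose Φ hΦ using h1
  have hlu : TendstoLocallyUniformlyOn G Φ (𝒰 : Filter ι) W := by
    rw [Metric.tendstoLocallyUniformlyOn_iff]
    intro ε hε x hx
    have h2 := equicont_aux hWo G hF K hM hK hx (show 0 < ε / 4 by linarith)
    refine ⟨{y | ∀ n, dist (G n y) (G n x) < ε / 4} ∩ W, ?_, ?_⟩
    · exact inter_mem (mem_nhdsWithin_of_mem_nhds h2) self_mem_nhdsWithin
    · have h3 : ∀ᶠ n in (𝒰 : Filter ι), dist (G n x) (Φ x) < ε / 4 :=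
        (hΦ x hx) (Metric.ball_mem_nhds _ (by linarith))
      filter_upwards [h3] with n hn y hy
      have h4 : dist (Φ y) (Φ x) ≤ ε / 4 := by
        refine le_of_tendsto ((hΦ y hy.2).dist (hΦ x hx)) ?_
        exact Eventually.of_forall fun m => (hy.1 m).le
      have h5 := hy.1 n
      calc dist (Φ y) (G n y) ≤ dist (Φ y) (Φ x) + dist (Φ x) (G n x) + dist (G n x) (G n y) :=
            dist_triangle4 _ _ _ _
        _ < ε := by
            rw [dist_comm (Φ x), dist_comm (G n x) (G n y)]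
            linarith
  exact ⟨Φ, hlu.differentiableOn (Eventually.of_forall hF) hWo, fun z hz => hΦ z hz⟩

/-- Montel, along an ultrafilter -/
theorem montel_disc {ι : Type*} (𝒰 : Ultrafilter ι) (s : ι → ℂ → ℂ) {z : ℂ}
    (hd : ∀ᶠ i in (𝒰 : Filter ι), DifferentiableOn ℂ (s i) (ball 0 1) ∧
      MapsTo (s i) (ball 0 1) (ball 0 1) ∧ s i 0 = z) :
    ∃ g : ℂ → ℂ, DifferentiableOn ℂ g (ball 0 1) ∧ MapsTo g (ball 0 1) (ball 0 1) ∧ g 0 = z ∧
      ∀ t ∈ ball (0 : ℂ) 1, Tendsto (fun i => s i t) 𝒰 (𝓝 (g t)) := by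
  classical
  obtain ⟨i₀, hi₀⟩ := hd.exists
  have hz1 : z ∈ ball (0 : ℂ) 1 := by
    rw [← hi₀.2.2]
    exact hi₀.2.1 (mem_ball_self one_pos)
  let P : ι → Prop := fun i => DifferentiableOn ℂ (s i) (ball 0 1) ∧
      MapsTo (s i) (ball 0 1) (ball 0 1) ∧ s i 0 = z
  let s' : ι → ℂ → ℂ := fun i => if P i then s i else fun _ => z
  have hs' : ∀ i, DifferentiableOn ℂ (s' i) (ball 0 1) ∧
      MapsTo (s' i) (ball 0 1) (ball 0 1) ∧ s' i 0 = z := by
    intro i
    by_cases h : P i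
    · have : s' i = s i := if_pos h
      rw [this]; exact h
    · have : s' i = fun _ => z := if_neg h
      rw [this]
      exact ⟨differentiableOn_const z, fun _ _ => hz1, rfl⟩
  have hev : ∀ᶠ i in (𝒰 : Filter ι), s' i = s i := by
    filter_upwards [hd] with i hi
    exact if_pos hi
  obtain ⟨g, hg1, hg2⟩ := montel_aux isOpen_ball s' (fun i => (hs' i).1) 1 zero_le_one
    (fun i w hw => (mem_ball_zero_iff.1 ((hs' i).2.1 hw)).le) 𝒰
  have hg0 : g 0 = z := by
    have h1 := hg2 0 (mem_ball_self one_pos)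
    have h2 : Tendsto (fun i => s' i 0) (𝒰 : Filter ι) (𝓝 z) := by
      simp only [(hs' _).2.2]
      exact tendsto_const_nhds
    exact tendsto_nhds_unique h1 h2
  have hle : ∀ t ∈ ball (0 : ℂ) 1, ‖g t‖ ≤ 1 := by
    intro t ht
    exact le_of_tendsto (hg2 t ht).norm
      (Eventually.of_forall fun i => (mem_ball_zero_iff.1 ((hs' i).2.1 ht)).le)
  refine ⟨g, hg1, ?_, hg0, ?_⟩
  · intro t ht
    rw [mem_ball_zero_iff]
    refine lt_of_le_of_ne (hle t ht) fun heq => ?_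
    have hmax : IsMaxOn (norm ∘ g) (ball (0 : ℂ) 1) t := by
      intro w hw
      show ‖g w‖ ≤ ‖g t‖
      rw [heq]; exact hle w hw
    have := Complex.norm_eqOn_of_isPreconnected_of_isMaxOn (convex_ball (0 : ℂ) 1).isPreconnected
      isOpen_ball hg1 ht hmax (mem_ball_self one_pos)
    simp only [Function.comp_apply, Function.const_apply] at this
    rw [hg0, heq] at this
    rw [mem_ball_zero_iff] at hz1
    linarith
  · intro t ht
    refine (hg2 t ht).congr' ?_
    filter_upwards [hev] with i hi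
    rw [hi]


end Pool.Agent.Helper684.GX.Cov
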