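import Pool.Agent.Helper684.GX.Cov.C16

attribute [local instance] Pool.Agent.Helper684.GX.Nev.leafInst

set_option autoImplicit false

open Set Metric Filter Topology MeasureTheory
open scoped Manifold ComplexConjugate
open Pool.Agent.Helper684.GX.Nev

namespace Pool.Agent.Helper684.GX.Cov

variable {E M : Type*} [NormedAddCommGroup E] [NormedSpace ℂ E] [TopologicalSpace M]
  [ChartedSpace E M] {F : Foliation E M}


theorem selection {P Y : Type*} [TopologicalSpace P] [PolishSpace P] [Nonempty P]
    [MeasurableSpace P] [BorelSpace P] [TopologicalSpace Y] [PolishSpace Y] [MeasurableSpace Y]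
    [BorelSpace Y] (ev : P → Y) (hev : Continuous ev) (U : ℕ → Set Y) (hU : ∀ i, IsOpen (U i))
    (D : ℕ → Set P) (hD : ∀ i, IsClosed (D i))
    (hinj : ∀ i, ∀ p ∈ D i, ∀ q ∈ D i, ev p = ev q → ev p ∈ U i → p = q) :
    ∃ sel : Y → P, Measurable sel ∧
      ∀ i, ∀ p ∈ D i, ev p ∈ U i → (∀ j < i, ev p ∉ U j) → sel (ev p) = p := by
  classical
  set B : Set P := ⋃ i, (D i ∩ ev ⁻¹' (U i \ ⋃ j, ⋃ (_ : j < i), U j)) with hB
  have hBm : MeasurableSet B := by
    refine MeasurableSet.iUnion fun i => (hD i).measurableSet.inter ?_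
    refine hev.measurable ?_
    exact (hU i).measurableSet.diff
      (MeasurableSet.iUnion fun j => MeasurableSet.iUnion fun _ => (hU j).measurableSet)
  have hmemB : ∀ p, p ∈ B ↔ ∃ i, p ∈ D i ∧ ev p ∈ U i ∧ ∀ j < i, ev p ∉ U j := by
    intro p
    simp only [hB, Set.mem_iUnion, Set.mem_inter_iff, Set.mem_preimage, Set.mem_diff, not_exists]
  have hinjB : Set.InjOn ev B := by
    intro p hp q hq hpq
    obtain ⟨i, hpi, hpU, hpj⟩ := (hmemB p).1 hp
    obtain ⟨k, hqk, hqU, hqj⟩ := (hmemB q).1 hq
    have hik : i = k := by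
      rcases lt_trichotomy i k with h | h | h
      · exact absurd (hpq ▸ hpU) (hqj i h)
      · exact h
      · exact absurd (hpq ▸ hqU) (hpj k h)
    subst hik
    exact hinj i p hpi q hqk hpq hpU
  haveI : StandardBorelSpace B := hBm.standardBorel
  let evB : B → Y := fun b => ev b.1
  have hevBm : Measurable evB := hev.measurable.comp measurable_subtype_coe
  have hevBi : Function.Injective evB := fun a b h => Subtype.ext (hinjB a.2 b.2 h)
  have hemb : MeasurableEmbedding evB := hevBm.measurableEmbedding hevBi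
  refine ⟨Function.extend evB Subtype.val (fun _ => Classical.arbitrary P), ?_, ?_⟩
  · exact hemb.measurable_extend measurable_subtype_coe measurable_const
  · intro i p hp hpU hpj
    have hpB : p ∈ B := (hmemB p).2 ⟨i, hp, hpU, hpj⟩
    exact hevBi.extend_apply Subtype.val _ (⟨p, hpB⟩ : B)


end Pool.Agent.Helper684.GX.Cov
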