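import Pool.Agent.Helper684.GX.Cov.C17

attribute [local instance] Pool.Agent.Helper684.GX.Nev.leafInst

set_option autoImplicit false

open Set Metric Filter Topology MeasureTheory
open scoped Manifold ComplexConjugate
open Pool.Agent.Helper684.GX.Nev

namespace Pool.Agent.Helper684.GX.Cov

variable {E M : Type*} [NormedAddCommGroup E] [NormedSpace ℂ E] [TopologicalSpace M]
  [ChartedSpace E M] {F : Foliation E M}


/-- countably many half boxes cover the regular part -/
theorem exists_countable_boxes [FiniteDimensional ℂ E] [T2Space M] [CompactSpace M]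
    (F : Foliation E M) (h : Nonempty (Reg F)) :
    ∃ B : ℕ → FBox F, ∀ x ∉ F.sing, ∃ i, x ∈ (B i).half := by
  classical
  have : PolishSpace (Reg F) := polish_reg (E := E) (M := M) F
  choose b hb using fun x : Reg F => exists_box (F := F) x.2
  obtain ⟨s, hs, hsU⟩ := TopologicalSpace.countable_cover_nhds
    (f := fun x : Reg F => (Subtype.val : Reg F → M) ⁻¹' (b x).half) (fun x =>
      ((isOpen_half (b x)).preimage continuous_subtype_val).mem_nhds (hb x))
  have hne : s.Nonempty := by
    by_contra hcon
    rw [Set.not_nonempty_iff_eq_empty] at hcon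
    rw [hcon] at hsU
    simp only [mem_empty_iff_false, iUnion_of_empty, iUnion_empty] at hsU
    obtain ⟨x⟩ := h
    have : x ∈ (univ : Set (Reg F)) := mem_univ x
    rw [← hsU] at this
    exact this
  obtain ⟨g, hg⟩ := hs.exists_eq_range hne
  refine ⟨fun i => b (g i), fun x hx => ?_⟩
  have h1 : (⟨x, hx⟩ : Reg F) ∈ ⋃ y ∈ s, (Subtype.val : Reg F → M) ⁻¹' (b y).half := by
    rw [hsU]
    exact mem_univ _
  simp only [mem_iUnion] at h1
  obtain ⟨y, hy, hxy⟩ := h1
  rw [hg] at hy
  obtain ⟨i, hi⟩ := hy
  refine ⟨i, ?_⟩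
  show x ∈ (b (g i)).half
  rw [hi]
  exact hxy

/-- joint measurability of evaluation -/
theorem measurable_eval [MeasurableSpace M] [BorelSpace M] [FiniteDimensional ℂ E] [T2Space M]
    [CompactSpace M] [MeasurableSpace (Disc F)] [BorelSpace (Disc F)]
    (sel : Reg F → Disc F) (hsel : Measurable sel) :
    ∃ Φ : M → ℂ → M, Measurable (fun p : M × ℂ => Φ p.1 p.2) ∧
      (∀ x, ContinuousOn (Φ x) (ball 0 1)) ∧
      ∀ x : Reg F, EqOn (Φ x) (ext (sel x)) (ball 0 1) := by
  classical
  have : PolishSpace (Reg F) := polish_reg (E := E) (M := M) F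
  set S : Set (M × ℂ) := {p | p.1 ∉ F.sing ∧ p.2 ∈ ball (0 : ℂ) 1} with hS
  have hSm : MeasurableSet S := by
    have h1 : MeasurableSet {p : M × ℂ | p.1 ∉ F.sing} :=
      measurable_fst F.isClosed_sing.measurableSet.compl
    have h2 : MeasurableSet {p : M × ℂ | p.2 ∈ ball (0 : ℂ) 1} :=
      measurable_snd isOpen_ball.measurableSet
    exact h1.inter h2
  -- the joint evaluation on the regular part times the ball
  have hjoint : Measurable (Function.uncurry
      fun (z : ball (0 : ℂ) 1) (x : Reg F) => (sel x) z) := by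
    apply measurable_uncurry_of_continuous_of_measurable
    · intro x
      exact (sel x).continuous
    · intro z
      have h3 : Measurable fun ψ : Disc F => ψ z := (continuous_eval_const z).measurable
      exact h3.comp hsel
  let k : S → (ball (0 : ℂ) 1) × Reg F := fun p => (⟨p.1.2, p.2.2⟩, ⟨p.1.1, p.2.1⟩)
  have hk : Measurable k := by
    refine Measurable.prodMk ?_ ?_
    · exact (measurable_snd.comp measurable_subtype_coe).subtype_mk
    · exact (measurable_fst.comp measurable_subtype_coe).subtype_mk
  let f : S → M := fun p => ((Function.uncurry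
      (fun (z : ball (0 : ℂ) 1) (x : Reg F) => (sel x) z) (k p) : Reg F) : M)
  have hf : Measurable f := measurable_subtype_coe.comp (hjoint.comp hk)
  have hg : Measurable (fun p : (Sᶜ : Set (M × ℂ)) => (p : M × ℂ).1) :=
    measurable_fst.comp measurable_subtype_coe
  have hΦ := Measurable.dite hf hg hSm
  refine ⟨fun x z => if hx : (x, z) ∈ S then f ⟨(x, z), hx⟩ else x, hΦ, fun x => ?_, fun x => ?_⟩
  · by_cases hx : x ∈ F.sing
    · refine ContinuousOn.congr (f := fun _ : ℂ => x) continuousOn_const fun z _ => ?_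
      have hn : (x, z) ∉ S := fun h => h.1 hx
      exact dif_neg hn
    · rw [continuousOn_iff_continuous_domRestrict]
      refine Continuous.congr (f := fun z : ball (0 : ℂ) 1 => (((sel ⟨x, hx⟩) z : Reg F) : M))
        (continuous_subtype_val.comp (sel ⟨x, hx⟩).continuous) fun z => ?_
      have hp : (x, (z : ℂ)) ∈ S := ⟨hx, z.2⟩
      exact (dif_pos (c := (x, (z : ℂ)) ∈ S) (t := fun hx => f ⟨(x, (z : ℂ)), hx⟩)
        (e := fun _ => x) hp).symm
  · intro z hz
    have hp : ((x : M), z) ∈ S := ⟨x.2, hz⟩
    rw [ext_apply (sel x) hz]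
    exact dif_pos (c := ((x : M), z) ∈ S) (t := fun hx => f ⟨((x : M), z), hx⟩)
        (e := fun _ => (x : M)) hp


end Pool.Agent.Helper684.GX.Cov
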