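import Pool.Agent.Helper684.GX.Cov.C1

attribute [local instance] Pool.Agent.Helper684.GX.Nev.leafInst

set_option autoImplicit false

open Set Metric Filter Topology MeasureTheory
open scoped Manifold ComplexConjugate
open Pool.Agent.Helper684.GX.Nev

namespace Pool.Agent.Helper684.GX.Cov

variable {E M : Type*} [NormedAddCommGroup E] [NormedSpace ℂ E] [TopologicalSpace M]
  [ChartedSpace E M] {F : Foliation E M}


/-- being a tangent disc is a local condition, which can be checked in plaques -/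
theorem isTangentDisc_of_local {ψ : ℂ → M}
    (h : ∀ z₀ ∈ ball (0 : ℂ) 1, ∃ (B : FBox F) (y : M) (a : ℂ → ℂ), y ∈ B.half ∧
      DifferentiableAt ℂ a z₀ ∧ a z₀ ∈ ball (0 : ℂ) 1 ∧ ∀ᶠ t in 𝓝 z₀, ψ t = B.pl y (a t)) :
    F.IsTangentDisc ψ := by
  have hmd : ∀ ξ ∈ ball (0 : ℂ) 1, MDifferentiableAt 𝓘(ℂ, ℂ) 𝓘(ℂ, E) ψ ξ := by
    intro ξ hξ
    obtain ⟨B, y, a, hy, ha, haξ, hev⟩ := h ξ hξ
    have h1 : MDifferentiableAt 𝓘(ℂ, E) 𝓘(ℂ, E) B.e.symm (B.e y + a ξ • B.v) :=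
      chart_symm_mdiff B.heC (pl_mem_target B hy haξ)
    have h2 : DifferentiableAt ℂ (fun t => B.e y + a t • B.v) ξ :=
      (differentiableAt_const _).add (ha.smul_const _)
    have h3 : MDifferentiableAt 𝓘(ℂ, ℂ) 𝓘(ℂ, E) (fun t => B.e y + a t • B.v) ξ :=
      h2.mdifferentiableAt
    have h4 : MDifferentiableAt 𝓘(ℂ, ℂ) 𝓘(ℂ, E) (fun t => B.e.symm (B.e y + a t • B.v)) ξ :=
      MDifferentiableAt.comp (I' := 𝓘(ℂ, E)) ξ h1 h3
    exact h4.congr_of_eventuallyEq hev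
  refine ⟨fun ξ hξ => (hmd ξ hξ).mdifferentiableWithinAt, ?_⟩
  intro ξ hξ
  obtain ⟨B, y, a, hy, ha, haξ, hev⟩ := h ξ hξ
  have hψξ : ψ ξ = B.pl y (a ξ) := hev.self_of_nhds
  have hsrc : ψ ξ ∈ B.e.source := by rw [hψξ]; exact (e_pl B hy haξ).1
  have hreg := source_regular B hsrc
  refine ⟨hreg, ?_⟩
  rw [(B.gen (ψ ξ) hsrc).2 hreg]
  refine ⟨deriv a ξ, ?_⟩
  have h1 := hasDerivAt_chart (hmd ξ hξ) ⟨B.heC, hsrc⟩
  have h2 : HasDerivAt (fun t => B.e y + a t • B.v) (deriv a ξ • B.v) ξ := by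
    have := (ha.hasDerivAt.smul_const B.v).const_add (B.e y)
    exact this
  have h3 : (fun z => B.e (ψ z)) =ᶠ[𝓝 ξ] (fun t => B.e y + a t • B.v) := by
    have hball : ∀ᶠ t in 𝓝 ξ, a t ∈ ball (0 : ℂ) 1 :=
      ha.continuousAt.eventually (isOpen_ball.mem_nhds haξ)
    filter_upwards [hev, hball] with t ht hat
    rw [ht]; exact (e_pl B hy hat).2
  exact h1.unique (h2.congr_of_eventuallyEq h3)

/-- a tangent disc in the coordinates of a flow box -/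
theorem tangent_chart {ψ : ℂ → M} (hψ : F.IsTangentDisc ψ) (B : FBox F) {z₀ : ℂ} {δ : ℝ}
    (hδ : ball z₀ δ ⊆ ball 0 1) (hB : ∀ z ∈ ball z₀ δ, ψ z ∈ B.half) :
    ∃ a : ℂ → ℂ, DifferentiableOn ℂ a (ball z₀ δ) ∧
      ∀ z ∈ ball z₀ δ, B.e (ψ z) = B.e (ψ z₀) + a z • B.v := by
  rcases le_or_gt δ 0 with hδ0 | hδ0
  · have he : ball z₀ δ = ∅ := ball_eq_empty.2 hδ0
    exact ⟨0, by rw [he]; exact differentiableOn_empty, fun z hz => by rw [he] at hz; exact absurd hz (notMem_empty z)⟩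
  have hz₀ : z₀ ∈ ball z₀ δ := mem_ball_self hδ0
  obtain ⟨g, -, hg⟩ := exists_dual_vector ℂ B.v (norm_ne_zero_iff.2 B.hv)
  have hn : (‖B.v‖ : ℂ) ≠ 0 := by
    have := norm_ne_zero_iff.2 B.hv
    exact_mod_cast this
  set l : E →L[ℂ] ℂ := ((‖B.v‖ : ℂ))⁻¹ • g with hl
  have hlv : l B.v = 1 := by
    rw [hl, ContinuousLinearMap.smul_apply, hg, smul_eq_mul]
    exact inv_mul_cancel₀ hn
  have hder : ∀ z ∈ ball z₀ δ, ∃ c : ℂ, HasDerivAt (fun z => B.e (ψ z)) (c • B.v) z := by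
    intro z hz
    exact hψ.exists_deriv B.gen (hδ hz) ⟨B.heC, (hB z hz).1⟩
  have hdera : ∀ z ∈ ball z₀ δ, ∃ c : ℂ, HasDerivAt (fun z => B.e (ψ z)) (c • B.v) z ∧
      HasDerivAt (fun z => l (B.e (ψ z) - B.e (ψ z₀))) c z := by
    intro z hz
    obtain ⟨c, hc⟩ := hder z hz
    refine ⟨c, hc, ?_⟩
    have h1 := l.hasFDerivAt.comp_hasDerivAt z (hc.sub_const (B.e (ψ z₀)))
    rw [map_smul, hlv, smul_eq_mul, mul_one] at h1
    exact h1
  refine ⟨fun z => l (B.e (ψ z) - B.e (ψ z₀)), ?_, ?_⟩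
  · intro z hz
    obtain ⟨c, -, hc⟩ := hdera z hz
    exact hc.differentiableAt.differentiableWithinAt
  · intro z hz
    have hconst : ∀ z ∈ ball z₀ δ, HasDerivAt
        (fun z => B.e (ψ z) - l (B.e (ψ z) - B.e (ψ z₀)) • B.v) 0 z := by
      intro z hz
      obtain ⟨c, hc1, hc2⟩ := hdera z hz
      have := hc1.sub (hc2.smul_const B.v)
      rw [sub_self] at this
      exact this
    have h1 := isOpen_ball.is_const_of_deriv_eq_zero (convex_ball z₀ δ).isPreconnected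
      (fun z hz => (hconst z hz).differentiableAt.differentiableWithinAt)
      (fun z hz => (hconst z hz).deriv) hz hz₀
    simp only [sub_self, map_zero, zero_smul, sub_zero] at h1
    rw [sub_eq_iff_eq_add] at h1
    exact h1


end Pool.Agent.Helper684.GX.Cov
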