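import Pool.Agent.Helper684.GX.Cov.C2

attribute [local instance] Pool.Agent.Helper684.GX.Nev.leafInst

set_option autoImplicit false

open Set Metric Filter Topology MeasureTheory
open scoped Manifold ComplexConjugate
open Pool.Agent.Helper684.GX.Nev

namespace Pool.Agent.Helper684.GX.Cov

variable {E M : Type*} [NormedAddCommGroup E] [NormedSpace ℂ E] [TopologicalSpace M]
  [ChartedSpace E M] {F : Foliation E M}


theorem discDeriv_congr_aux {φ ψ : ℂ → M} {ξ : ℂ} (h : φ =ᶠ[𝓝 ξ] ψ) :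
    (discDeriv (E := E) φ ξ 1 : E) = (discDeriv (E := E) ψ ξ 1 : E) := by
  have h1 := h.mfderiv_eq (I := 𝓘(ℂ, ℂ)) (I' := 𝓘(ℂ, E))
  unfold discDeriv
  exact congrArg (fun L : ℂ →L[ℂ] E => L 1) h1

theorem mem_dir_congr_aux {x y : M} (hxy : x = y) (u v : E) (huv : u = v)
    (hu : (u : TangentSpace 𝓘(ℂ, E) x) ∈ F.dir x) : (v : TangentSpace 𝓘(ℂ, E) y) ∈ F.dir y := by
  subst hxy
  subst huv
  exact hu

omit [TopologicalSpace M] in
theorem eventuallyEq_aux {φ ψ : ℂ → M} (h : EqOn φ ψ (ball 0 1)) {ξ : ℂ}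
    (hξ : ξ ∈ ball (0 : ℂ) 1) : φ =ᶠ[𝓝 ξ] ψ :=
  Filter.eventuallyEq_of_mem (isOpen_ball.mem_nhds hξ) h

theorem tangentDisc_congr {φ ψ : ℂ → M} (h : EqOn φ ψ (ball 0 1)) (hφ : F.IsTangentDisc φ) :
    F.IsTangentDisc ψ := by
  refine ⟨hφ.1.congr (fun z hz => (h hz).symm), ?_⟩
  intro ξ hξ
  have h1 := hφ.2 ξ hξ
  refine ⟨by rw [← h hξ]; exact h1.1, ?_⟩
  have h2 := discDeriv_congr_aux (E := E) (eventuallyEq_aux h hξ)
  exact mem_dir_congr_aux (E := E) (F := F) (h hξ) (discDeriv (E := E) φ ξ 1 : E)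
    (discDeriv (E := E) ψ ξ 1 : E) h2 h1.2

theorem PL_congr {φ ψ : ℂ → M} (h : EqOn φ ψ (ball 0 1)) (hφ : PL F φ) : PL F ψ := by
  intro B z hz hB
  rw [← h hz] at hB
  obtain ⟨s, hs1, hs2, hs3, hs4⟩ := hφ B z hz hB
  refine ⟨s, hs1, hs2, hs3, ?_⟩
  intro t ht
  rw [← h hz, ← h (hs2 ht)]
  exact hs4 t ht

theorem universalCovering_congr {φ ψ : ℂ → M} (h : EqOn φ ψ (ball 0 1))
    (hφ : F.IsUniversalCovering φ) : F.IsUniversalCovering ψ := by
  refine ⟨tangentDisc_congr h hφ.tangent, ?_, ?_⟩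
  · intro ξ hξ h0
    apply hφ.immersion ξ hξ
    exact (discDeriv_congr_aux (E := E) (eventuallyEq_aux h hξ)).trans h0
  · have h1 := hφ.covering
    have h2 : (fun ξ : ball (0 : ℂ) 1 => F.toLeafSpace (φ ξ)) =
        (fun ξ : ball (0 : ℂ) 1 => F.toLeafSpace (ψ ξ)) := by
      funext ξ
      rw [h ξ.2]
    rw [h2, h (mem_ball_self one_pos)] at h1
    exact h1


end Pool.Agent.Helper684.GX.Cov
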