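import Pool.Agent.Helper684.GX.Cov.C4

attribute [local instance] Pool.Agent.Helper684.GX.Nev.leafInst

set_option autoImplicit false

open Set Metric Filter Topology MeasureTheory
open scoped Manifold ComplexConjugate
open Pool.Agent.Helper684.GX.Nev

namespace Pool.Agent.Helper684.GX.Cov

variable {E M : Type*} [NormedAddCommGroup E] [NormedSpace ℂ E] [TopologicalSpace M]
  [ChartedSpace E M] {F : Foliation E M}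



theorem hRot_mem {u z : ℂ} (hu : ‖u‖ = 1) (hz : z ∈ ball (0:ℂ) 1) : u * z ∈ ball (0:ℂ) 1 := by
  rw [mem_ball_zero_iff] at *
  rw [norm_mul, hu, one_mul]; exact hz

theorem hRot_mdiff {ψ : ℂ → M} {u ξ : ℂ} (h : MDifferentiableAt 𝓘(ℂ, ℂ) 𝓘(ℂ, E) ψ (u * ξ)) :
    MDifferentiableAt 𝓘(ℂ, ℂ) 𝓘(ℂ, E) (fun z => ψ (u * z)) ξ := by
  have h1 : MDifferentiableAt 𝓘(ℂ, ℂ) 𝓘(ℂ, ℂ) (fun z : ℂ => u * z) ξ :=
    (differentiableAt_id.const_mul u).mdifferentiableAt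
  exact MDifferentiableAt.comp ξ h h1

theorem hRot_deriv {ψ : ℂ → M} {u ξ : ℂ} (h : MDifferentiableAt 𝓘(ℂ, ℂ) 𝓘(ℂ, E) ψ (u * ξ)) :
    discDeriv (E := E) (fun z => ψ (u * z)) ξ 1 = u • discDeriv (E := E) ψ (u * ξ) 1 := by
  have hd : DifferentiableAt ℂ (fun z : ℂ => u * z) ξ := differentiableAt_id.const_mul u
  have h1 : MDifferentiableAt 𝓘(ℂ, ℂ) 𝓘(ℂ, ℂ) (fun z : ℂ => u * z) ξ := hd.mdifferentiableAt
  have h2 := mfderiv_comp ξ h h1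
  have h3 : mfderiv 𝓘(ℂ, ℂ) 𝓘(ℂ, ℂ) (fun z : ℂ => u * z) ξ = fderiv ℂ (fun z : ℂ => u * z) ξ :=
    mfderiv_eq_fderiv
  have h4 : fderiv ℂ (fun z : ℂ => u * z) ξ (1:ℂ) = u := by
    have h5 : HasDerivAt (fun z : ℂ => u * z) (u * 1) ξ := (hasDerivAt_id ξ).const_mul u
    have h6 := h5.hasFDerivAt.fderiv
    rw [h6]; simp
  have h7 : (mfderiv 𝓘(ℂ, ℂ) 𝓘(ℂ, E) (ψ ∘ fun z : ℂ => u * z) ξ) (1:ℂ) =
      (mfderiv 𝓘(ℂ, ℂ) 𝓘(ℂ, E) ψ (u * ξ)) (u : ℂ) := by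
    rw [h2, h3]
    show (mfderiv 𝓘(ℂ, ℂ) 𝓘(ℂ, E) ψ (u * ξ)) (fderiv ℂ (fun z : ℂ => u * z) ξ (1:ℂ)) = _
    rw [h4]
  have h8 : (mfderiv 𝓘(ℂ, ℂ) 𝓘(ℂ, E) ψ (u * ξ)) (u : ℂ) =
      u • (mfderiv 𝓘(ℂ, ℂ) 𝓘(ℂ, E) ψ (u * ξ)) (1 : ℂ) := by
    have e : (u : ℂ) = u • (1:ℂ) := by simp
    have h9 := (mfderiv 𝓘(ℂ, ℂ) 𝓘(ℂ, E) ψ (u * ξ)).map_smul u (1:ℂ)
    exact (congrArg (fun t : ℂ => (mfderiv 𝓘(ℂ, ℂ) 𝓘(ℂ, E) ψ (u * ξ)) t) e).trans h9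
  exact h7.trans h8

theorem hRot_dir {x : M} (hx : x ∉ F.sing) {v : TangentSpace 𝓘(ℂ, E) x}
    (hv : v ∈ F.dir x) (u : ℂ) : u • v ∈ F.dir x := by
  obtain ⟨e, he, w, hw, hg⟩ := F.flowBox x hx
  have h := (hg x he.2).2 hx
  rw [h] at hv ⊢
  obtain ⟨c, hc⟩ := hv
  refine ⟨u * c, ?_⟩
  unfold chartDeriv at *
  rw [map_smul, hc]
  exact (mul_smul u c w).symm

/-- rotation of the disc -/
noncomputable def hRot_homeo {u : ℂ} (hu : ‖u‖ = 1) : ball (0 : ℂ) 1 ≃ₜ ball (0 : ℂ) 1 where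
  toFun z := ⟨u * z, hRot_mem hu z.2⟩
  invFun z := ⟨u⁻¹ * z, hRot_mem (by rw [norm_inv, hu, inv_one]) z.2⟩
  left_inv z := by
    apply Subtype.ext
    have : u ≠ 0 := by intro h; rw [h, norm_zero] at hu; exact zero_ne_one hu
    simp [this]
  right_inv z := by
    apply Subtype.ext
    have : u ≠ 0 := by intro h; rw [h, norm_zero] at hu; exact zero_ne_one hu
    simp [this]
  continuous_toFun := by fun_prop
  continuous_invFun := by fun_prop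

theorem universalCovering_rot {φ : ℂ → M} (hφ : F.IsUniversalCovering φ) {u : ℂ} (hu : ‖u‖ = 1) :
    F.IsUniversalCovering (fun z => φ (u * z)) := by
  have hu0 : u ≠ 0 := by intro h; rw [h, norm_zero] at hu; exact zero_ne_one hu
  have hmd : ∀ ξ ∈ ball (0:ℂ) 1, MDifferentiableAt 𝓘(ℂ, ℂ) 𝓘(ℂ, E) φ (u * ξ) := fun ξ hξ =>
    hφ.tangent.mdiffAt (hRot_mem hu hξ)
  refine ⟨⟨fun ξ hξ => (hRot_mdiff (hmd ξ hξ)).mdifferentiableWithinAt, fun ξ hξ => ⟨?_, ?_⟩⟩,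
    fun ξ hξ => ?_, ?_⟩
  · exact (hφ.tangent.2 _ (hRot_mem hu hξ)).1
  · rw [hRot_deriv (hmd ξ hξ)]
    obtain ⟨h1, h2⟩ := hφ.tangent.2 _ (hRot_mem hu hξ)
    exact hRot_dir h1 h2 u
  · rw [hRot_deriv (hmd ξ hξ)]
    exact smul_ne_zero hu0 (hφ.immersion _ (hRot_mem hu hξ))
  · have h := hφ.covering.comp_homeomorph (hRot_homeo hu)
    have h0 : φ (u * 0) = φ 0 := by rw [mul_zero]
    show IsCoveringMapOn (fun ξ : ball (0 : ℂ) 1 => F.toLeafSpace (φ (u * ξ)))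
      (F.leaf (F.toLeafSpace (φ (u * 0))))
    rw [h0]
    exact h


end Pool.Agent.Helper684.GX.Cov
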