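import Pool.Agent.Helper684.GX.Cov.C7

attribute [local instance] Pool.Agent.Helper684.GX.Nev.leafInst

set_option autoImplicit false

open Set Metric Filter Topology MeasureTheory
open scoped Manifold ComplexConjugate
open Pool.Agent.Helper684.GX.Nev

namespace Pool.Agent.Helper684.GX.Cov

variable {E M : Type*} [NormedAddCommGroup E] [NormedSpace ℂ E] [TopologicalSpace M]
  [ChartedSpace E M] {F : Foliation E M}


section
variable [IsManifold 𝓘(ℂ, E) 1 M]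

/-- existence of a lift on the disc of radius `r` -/
def HasLift (ψ χ : ℂ → M) (z₀ : ℂ) (r : ℝ) : Prop :=
  ∃ h : ℂ → ℂ, DifferentiableOn ℂ h (ball 0 r) ∧ MapsTo h (ball 0 r) (ball 0 1) ∧ h 0 = z₀ ∧
      ∀ t ∈ ball (0 : ℂ) r, ψ (h t) = χ t

theorem HasLift.mono {ψ χ : ℂ → M} {z₀ : ℂ} {r r' : ℝ} (h : HasLift ψ χ z₀ r) (hr : r' ≤ r) :
    HasLift ψ χ z₀ r' := by
  obtain ⟨g, h1, h2, h3, h4⟩ := h
  have hs := ball_subset_ball (x := (0 : ℂ)) hr
  exact ⟨g, h1.mono hs, h2.mono_left hs, h3, fun t ht => h4 t (hs ht)⟩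

theorem HasLift.step {ψ χ : ℂ → M} (hψ : IsCov F ψ) {z₀ : ℂ} {R δ : ℝ} (hδ : 0 < δ)
    (hloc : ∀ ζ : ℂ, ‖ζ‖ ≤ R → ∀ w ∈ ball (0 : ℂ) 1, ψ w = χ ζ → ∃ h : ℂ → ℂ,
      DifferentiableOn ℂ h (ball ζ δ) ∧ MapsTo h (ball ζ δ) (ball 0 1) ∧ h ζ = w ∧
        ∀ t ∈ ball ζ δ, ψ (h t) = χ t)
    {r : ℝ} (hr0 : 0 < r) (hrR : r ≤ R) (hl : HasLift ψ χ z₀ r) :
    HasLift ψ χ z₀ (r + δ / 4) := by
  obtain ⟨h, hd, hm, h0, he⟩ := hl
  have hex : ∀ ζ : ℂ, ∃ g : ℂ → ℂ, ζ ∈ ball (0 : ℂ) r →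
      (DifferentiableOn ℂ g (ball ζ δ) ∧ MapsTo g (ball ζ δ) (ball 0 1) ∧ g ζ = h ζ ∧
        ∀ t ∈ ball ζ δ, ψ (g t) = χ t) := by
    intro ζ
    by_cases hζ : ζ ∈ ball (0 : ℂ) r
    · have hζ' : ‖ζ‖ < r := mem_ball_zero_iff.1 hζ
      obtain ⟨g, hg⟩ := hloc ζ (by linarith) (h ζ) (hm hζ) (he ζ hζ)
      exact ⟨g, fun _ => hg⟩
    · exact ⟨0, fun hh => absurd hh hζ⟩
  choose H hH using hex
  -- agreement of `H ζ` and `h`
  have hagree : ∀ ζ ∈ ball (0 : ℂ) r, ∀ t ∈ ball (0 : ℂ) r, t ∈ ball ζ δ → H ζ t = h t := by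
    intro ζ hζ t ht htζ
    obtain ⟨a1, a2, a3, a4⟩ := hH ζ hζ
    have hpre : IsPreconnected (ball ζ δ ∩ ball (0 : ℂ) r) :=
      ((convex_ball ζ δ).inter (convex_ball (0 : ℂ) r)).isPreconnected
    refine lift_unique hψ hpre (a1.continuousOn.mono inter_subset_left)
      (hd.continuousOn.mono inter_subset_right) (a2.mono_left inter_subset_left)
      (hm.mono_left inter_subset_right) (t₀ := ζ) ⟨mem_ball_self hδ, hζ⟩ a3 ?_ ⟨htζ, ht⟩
    intro u hu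
    rw [a4 u hu.1, he u hu.2]
  -- agreement of the local lifts
  have hagree2 : ∀ ζ ∈ ball (0 : ℂ) r, ∀ ζ' ∈ ball (0 : ℂ) r, dist ζ' ζ < δ →
      ∀ t ∈ ball ζ δ, t ∈ ball ζ' δ → H ζ t = H ζ' t := by
    intro ζ hζ ζ' hζ' hdist t ht ht'
    obtain ⟨a1, a2, a3, a4⟩ := hH ζ hζ
    obtain ⟨b1, b2, b3, b4⟩ := hH ζ' hζ'
    have hpre : IsPreconnected (ball ζ δ ∩ ball ζ' δ) :=
      ((convex_ball ζ δ).inter (convex_ball ζ' δ)).isPreconnected
    refine lift_unique hψ hpre (a1.continuousOn.mono inter_subset_left)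
      (b1.continuousOn.mono inter_subset_right) (a2.mono_left inter_subset_left)
      (b2.mono_left inter_subset_right) (t₀ := ζ') ⟨mem_ball.2 hdist, mem_ball_self hδ⟩ ?_ ?_
      ⟨ht, ht'⟩
    · rw [b3]; exact hagree ζ hζ ζ' hζ' (mem_ball.2 hdist)
    · intro u hu
      rw [a4 u hu.1, b4 u hu.2]
  set s : ℝ := r / (r + δ / 4) with hs
  have hden : 0 < r + δ / 4 := by positivity
  have hs0 : 0 < s := div_pos hr0 hden
  have hs1 : s < 1 := (div_lt_one hden).2 (by linarith)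
  have hsmul : s * (r + δ / 4) = r := div_mul_cancel₀ _ hden.ne'
  have hz : ∀ t ∈ ball (0 : ℂ) (r + δ / 4), (s : ℂ) * t ∈ ball (0 : ℂ) r := by
    intro t ht
    rw [mem_ball_zero_iff] at ht ⊢
    rw [norm_mul, Complex.norm_real, Real.norm_of_nonneg hs0.le]
    calc s * ‖t‖ < s * (r + δ / 4) := mul_lt_mul_of_pos_left ht hs0
      _ = r := hsmul
  have hzt : ∀ t ∈ ball (0 : ℂ) (r + δ / 4), dist t ((s : ℂ) * t) < δ / 4 := by
    intro t ht
    rw [mem_ball_zero_iff] at ht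
    have e1 : t - (s : ℂ) * t = ((1 - s : ℝ) : ℂ) * t := by push_cast; ring
    rw [dist_eq_norm, e1, norm_mul, Complex.norm_real, Real.norm_of_nonneg (by linarith)]
    calc (1 - s) * ‖t‖ < (1 - s) * (r + δ / 4) := mul_lt_mul_of_pos_left ht (by linarith)
      _ = δ / 4 := by rw [sub_mul, hsmul]; ring
  have hloceq : ∀ t₀ ∈ ball (0 : ℂ) (r + δ / 4), ∀ t ∈ ball (0 : ℂ) (r + δ / 4),
      dist t t₀ < δ / 4 → H ((s : ℂ) * t) t = H ((s : ℂ) * t₀) t := by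
    intro t₀ ht₀ t ht hdist
    apply hagree2 _ (hz t ht) _ (hz t₀ ht₀)
    · have e1 : (s : ℂ) * t₀ - (s : ℂ) * t = (s : ℂ) * (t₀ - t) := by ring
      rw [dist_eq_norm, e1, norm_mul, Complex.norm_real, Real.norm_of_nonneg hs0.le,
        ← dist_eq_norm, dist_comm]
      have h1 : s * dist t t₀ ≤ 1 * dist t t₀ := mul_le_mul_of_nonneg_right hs1.le dist_nonneg
      linarith
    · exact mem_ball.2 (by linarith [hzt t ht])
    · rw [mem_ball]
      have h1 := dist_triangle t t₀ ((s : ℂ) * t₀)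
      have h2 := hzt t₀ ht₀
      linarith
  refine ⟨fun t => H ((s : ℂ) * t) t, ?_, ?_, ?_, ?_⟩
  · intro t₀ ht₀
    have h1 := (hH _ (hz t₀ ht₀)).1
    have hmem : t₀ ∈ ball ((s : ℂ) * t₀) δ := mem_ball.2 (by linarith [hzt t₀ ht₀])
    have h2 : DifferentiableAt ℂ (H ((s : ℂ) * t₀)) t₀ :=
      h1.differentiableAt (isOpen_ball.mem_nhds hmem)
    have h3 : (fun t => H ((s : ℂ) * t) t) =ᶠ[𝓝 t₀] H ((s : ℂ) * t₀) := by
      filter_upwards [isOpen_ball.mem_nhds ht₀, ball_mem_nhds t₀ (show 0 < δ / 4 by positivity)]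
        with t ht ht'
      exact hloceq t₀ ht₀ t ht (mem_ball.1 ht')
    exact (h2.congr_of_eventuallyEq h3).differentiableWithinAt
  · intro t ht
    exact (hH _ (hz t ht)).2.1 (mem_ball.2 (by linarith [hzt t ht]))
  · have h1 : (0 : ℂ) ∈ ball (0 : ℂ) r := mem_ball_self hr0
    change H ((s : ℂ) * 0) 0 = z₀
    rw [mul_zero, (hH 0 h1).2.2.1, h0]
  · intro t ht
    exact (hH _ (hz t ht)).2.2.2 t (mem_ball.2 (by linarith [hzt t ht]))

/-- lifting on all smaller discs -/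
theorem lift_ball {ψ χ : ℂ → M} (hψ : IsCov F ψ) (hχ : F.IsTangentDisc χ) {z₀ : ℂ}
    (hz₀ : z₀ ∈ ball (0 : ℂ) 1) (h0 : ψ z₀ = χ 0) {R : ℝ} (hR0 : 0 < R) (hR : R < 1) :
    ∃ h : ℂ → ℂ, DifferentiableOn ℂ h (ball 0 R) ∧ MapsTo h (ball 0 R) (ball 0 1) ∧ h 0 = z₀ ∧
      ∀ t ∈ ball (0 : ℂ) R, ψ (h t) = χ t := by
  obtain ⟨δ, hδ, _, hloc⟩ := lift_local hψ hχ hR
  have hbase : HasLift ψ χ z₀ δ := by
    obtain ⟨h, h1, h2, h3, h4⟩ := hloc 0 (by simpa using hR0.le) z₀ hz₀ h0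
    exact ⟨h, h1, h2, h3, h4⟩
  have key : ∀ n : ℕ, ∀ r : ℝ, 0 < r → r ≤ R → r ≤ (n + 1) * (δ / 4) → HasLift ψ χ z₀ r := by
    intro n
    induction n with
    | zero =>
      intro r hr0 hrR hr
      apply hbase.mono
      push_cast at hr
      linarith
    | succ n ih =>
      intro r hr0 hrR hr
      push_cast at hr
      have hn : (0 : ℝ) ≤ n := Nat.cast_nonneg n
      have hpos : 0 < (n + 1) * (δ / 4) := by positivity
      have h1 : HasLift ψ χ z₀ (min r ((n + 1) * (δ / 4))) :=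
        ih _ (lt_min hr0 hpos) ((min_le_left _ _).trans hrR) (min_le_right _ _)
      have h2 := HasLift.step hψ hδ hloc (lt_min hr0 hpos) ((min_le_left _ _).trans hrR) h1
      apply h2.mono
      rcases le_total r ((n + 1) * (δ / 4)) with h | h
      · rw [min_eq_left h]; linarith
      · rw [min_eq_right h]; linarith
  obtain ⟨n, hn⟩ := exists_nat_gt (R / (δ / 4))
  have hn' : R < n * (δ / 4) := (div_lt_iff₀ (by positivity)).1 hn
  have := key n R hR0 le_rfl (by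
    have : 0 < δ / 4 := by positivity
    linarith)
  exact this

end


end Pool.Agent.Helper684.GX.Cov
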