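import Pool.Agent.Helper684.GX.Cov.C8

attribute [local instance] Pool.Agent.Helper684.GX.Nev.leafInst

set_option autoImplicit false

open Set Metric Filter Topology MeasureTheory
open scoped Manifold ComplexConjugate
open Pool.Agent.Helper684.GX.Nev

namespace Pool.Agent.Helper684.GX.Cov

variable {E M : Type*} [NormedAddCommGroup E] [NormedSpace ℂ E] [TopologicalSpace M]
  [ChartedSpace E M] {F : Foliation E M}


section
variable [IsManifold 𝓘(ℂ, E) 1 M]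

/-- lifting of tangent discs -/
theorem lift {ψ χ : ℂ → M} (hψ : IsCov F ψ) (hχ : F.IsTangentDisc χ) {z₀ : ℂ}
    (hz₀ : z₀ ∈ ball (0 : ℂ) 1) (h0 : ψ z₀ = χ 0) :
    ∃ h : ℂ → ℂ, DifferentiableOn ℂ h (ball 0 1) ∧ MapsTo h (ball 0 1) (ball 0 1) ∧ h 0 = z₀ ∧
      ∀ t ∈ ball (0 : ℂ) 1, ψ (h t) = χ t := by
  have key : ∀ R : ℝ, ∃ h : ℂ → ℂ, 0 < R → R < 1 → DifferentiableOn ℂ h (ball 0 R) ∧
      MapsTo h (ball 0 R) (ball 0 1) ∧ h 0 = z₀ ∧ ∀ t ∈ ball (0 : ℂ) R, ψ (h t) = χ t := by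
    intro R
    by_cases hR : 0 < R ∧ R < 1
    · obtain ⟨h, hh⟩ := lift_ball hψ hχ hz₀ h0 hR.1 hR.2
      exact ⟨h, fun _ _ => hh⟩
    · exact ⟨fun _ => 0, fun h1 h2 => absurd ⟨h1, h2⟩ hR⟩
  choose H hH using key
  have agree : ∀ R S : ℝ, 0 < R → R ≤ S → S < 1 → EqOn (H R) (H S) (ball 0 R) := by
    intro R S hR hRS hS
    obtain ⟨d1, m1, z1, l1⟩ := hH R hR (lt_of_le_of_lt hRS hS)
    obtain ⟨d2, m2, z2, l2⟩ := hH S (hR.trans_le hRS) hS
    have hsub : ball (0 : ℂ) R ⊆ ball 0 S := ball_subset_ball hRS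
    exact lift_unique hψ (convex_ball (0 : ℂ) R).isPreconnected d1.continuousOn
      (d2.continuousOn.mono hsub) m1 (m2.mono_left hsub) (mem_ball_self hR) (by rw [z1, z2])
      (fun t ht => by rw [l1 t ht, l2 t (hsub ht)])
  have agree' : ∀ R S : ℝ, 0 < R → R < 1 → 0 < S → S < 1 → ∀ t : ℂ, ‖t‖ < R → ‖t‖ < S → H R t = H S t := by
    intro R S hR hR1 hS hS1 t htR htS
    rcases le_total R S with h | h
    · exact agree R S hR h hS1 (by simpa using htR)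
    · exact (agree S R hS h hR1 (by simpa using htS)).symm
  have hr : ∀ t ∈ ball (0 : ℂ) 1, 0 < (1 + ‖t‖) / 2 ∧ (1 + ‖t‖) / 2 < 1 ∧ ‖t‖ < (1 + ‖t‖) / 2 := by
    intro t ht
    have h1 : ‖t‖ < 1 := by simpa using ht
    have h2 := norm_nonneg t
    refine ⟨by linarith, by linarith, by linarith⟩
  refine ⟨fun t => H ((1 + ‖t‖) / 2) t, ?_, ?_, ?_, ?_⟩
  · intro t₀ ht₀
    obtain ⟨h1, h2, h3⟩ := hr t₀ ht₀
    have hd := (hH _ h1 h2).1
    have hmem : t₀ ∈ ball (0 : ℂ) ((1 + ‖t₀‖) / 2) := by simpa using h3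
    have hev : (fun t => H ((1 + ‖t‖) / 2) t) =ᶠ[𝓝 t₀] H ((1 + ‖t₀‖) / 2) := by
      filter_upwards [isOpen_ball.mem_nhds hmem, isOpen_ball.mem_nhds ht₀] with t ht ht'
      obtain ⟨k1, k2, k3⟩ := hr t ht'
      exact agree' _ _ k1 k2 h1 h2 t k3 (by simpa using ht)
    exact (((hd.differentiableAt (isOpen_ball.mem_nhds hmem)).congr_of_eventuallyEq hev)).differentiableWithinAt
  · intro t ht
    obtain ⟨h1, h2, h3⟩ := hr t ht
    exact (hH _ h1 h2).2.1 (by simpa using h3)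
  · obtain ⟨h1, h2, h3⟩ := hr 0 (mem_ball_self one_pos)
    exact (hH _ h1 h2).2.2.1
  · intro t ht
    obtain ⟨h1, h2, h3⟩ := hr t ht
    exact (hH _ h1 h2).2.2.2 t (by simpa using h3)

end

section
variable [IsManifold 𝓘(ℂ, E) 1 M]

/-- rigidity -/
theorem rigid {ψ χ : ℂ → M} (hψ : IsCov F ψ) (hχ : IsCov F χ) (h0 : ψ 0 = χ 0) :
    ∃ u : ℂ, ‖u‖ = 1 ∧ ∀ t ∈ ball (0 : ℂ) 1, χ t = ψ (u * t) := by
  have m0 : (0 : ℂ) ∈ ball (0 : ℂ) 1 := mem_ball_self one_pos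
  obtain ⟨f, df, mf, f0, lf⟩ := lift hψ hχ.1 m0 h0
  obtain ⟨g, dg, mg, g0, lg⟩ := lift hχ hψ.1 m0 h0.symm
  have hfg : EqOn (f ∘ g) id (ball 0 1) := by
    refine lift_unique hψ (convex_ball (0 : ℂ) 1).isPreconnected
      (df.continuousOn.comp dg.continuousOn mg) continuousOn_id (mf.comp mg) (fun t ht => ht) m0
      (by simp [f0, g0]) ?_
    intro t ht
    rw [Function.comp_apply, lf _ (mg ht), lg t ht, id]
  have hhalf : (1 / 2 : ℂ) ∈ ball (0 : ℂ) 1 := by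
    rw [mem_ball_zero_iff]; norm_num
  have mf' : MapsTo f (ball 0 1) (closedBall 0 1) := fun t ht => ball_subset_closedBall (mf ht)
  have mg' : MapsTo g (ball 0 1) (closedBall 0 1) := fun t ht => ball_subset_closedBall (mg ht)
  have h1 : ‖g (1 / 2)‖ ≤ ‖(1 / 2 : ℂ)‖ :=
    Complex.norm_le_norm_of_mapsTo_ball dg mg' g0 (by simpa using hhalf)
  have h2 : ‖f (g (1 / 2))‖ ≤ ‖g (1 / 2)‖ :=
    Complex.norm_le_norm_of_mapsTo_ball df mf' f0 (by simpa using mg hhalf)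
  have h3 : f (g (1 / 2)) = 1 / 2 := hfg hhalf
  rw [h3] at h2
  have h4 : ‖g (1 / 2)‖ = ‖(1 / 2 : ℂ)‖ := le_antisymm h1 h2
  have hne : g (1 / 2) ≠ 0 := by
    rw [← norm_ne_zero_iff, h4]
    norm_num
  have h5 : ‖dslope f 0 (g (1 / 2))‖ = 1 / 1 := by
    rw [dslope_of_ne _ hne, slope_def_module, norm_smul, norm_inv, sub_zero, f0, sub_zero, h3, h4]
    norm_num
  obtain ⟨u, hu, hfu⟩ := Complex.affine_of_mapsTo_ball_of_exists_norm_dslope_eq_div' df (by rwa [f0])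
    ⟨g (1 / 2), mg hhalf, h5⟩
  refine ⟨u, by rw [hu]; norm_num, ?_⟩
  intro t ht
  rw [← lf t ht, hfu ht]
  simp only [f0, sub_zero, zero_add, smul_eq_mul]
  rw [mul_comm]

end


end Pool.Agent.Helper684.GX.Cov
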