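import Pool.Agent.Helper684.GX.NevLift

attribute [local instance] Pool.Agent.Helper684.GX.Nev.leafInst

/-!
Flow boxes with room, plaques, and the plaque lifting property of universal coverings of leaves.
Used to show that the universal coverings of the leaves depend measurably on the base point.
-/

set_option autoImplicit false

open Set Metric Filter Topology
open scoped Manifold
open Pool.Agent.Helper684.GX.Nev

namespace Pool.Agent.Helper684.GX.Cov

variable {E M : Type*} [NormedAddCommGroup E] [NormedSpace ℂ E] [TopologicalSpace M]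
  [ChartedSpace E M]

/-- A flow box with room around the ball of centre `c` and radius `ρ` (in the coordinates). -/
structure FBox (F : Foliation E M) where
  e : OpenPartialHomeomorph M E
  heC : e ∈ IsManifold.maximalAtlas 𝓘(ℂ, E) 1 M
  v : E
  hv : v ≠ 0
  gen : GeneratedOn F.sing F.dir e (fun _ => v)
  c : E
  ρ : ℝ
  hρ : 0 < ρ
  hvρ : ‖v‖ ≤ ρ
  htar : ball c (2 * ρ) ⊆ e.target

/-- the half box: points with coordinates in `ball c ρ` -/
def FBox.half {F : Foliation E M} (B : FBox F) : Set M :=
  {y | y ∈ B.e.source ∧ B.e y ∈ ball B.c B.ρ}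

/-- the plaque through `y`, parametrised by the unit disc -/
def FBox.pl {F : Foliation E M} (B : FBox F) (y : M) (t : ℂ) : M :=
  B.e.symm (B.e y + t • B.v)

/-- plaque lifting property -/
def PL (F : Foliation E M) (ψ : ℂ → M) : Prop :=
  ∀ (B : FBox F) (z : ℂ), z ∈ ball (0 : ℂ) 1 → ψ z ∈ B.half →
    ∃ s : ℂ → ℂ, DifferentiableOn ℂ s (ball 0 1) ∧ MapsTo s (ball 0 1) (ball 0 1) ∧ s 0 = z ∧
      ∀ t ∈ ball (0 : ℂ) 1, ψ (s t) = B.pl (ψ z) t

/-- the regular part of the manifold -/
abbrev Reg (F : Foliation E M) : Type _ := {x : M // x ∉ F.sing}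

/-- continuous maps from the unit disc to the regular part -/
abbrev Disc (F : Foliation E M) : Type _ := C(ball (0 : ℂ) 1, Reg F)

/-- a continuous map of the disc, as a function on `ℂ` -/
noncomputable def ext {F : Foliation E M} (ψ : Disc F) (z : ℂ) : M :=
  open Classical in
  if h : z ∈ ball (0 : ℂ) 1 then ((ψ ⟨z, h⟩ : Reg F) : M)
  else ((ψ ⟨0, mem_ball_self one_pos⟩ : Reg F) : M)

/-- tangent discs with the plaque lifting property -/
def IsCov (F : Foliation E M) (ψ : ℂ → M) : Prop := F.IsTangentDisc ψ ∧ PL F ψ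

/-- at the centre, the disc points in the positive direction of the flow box `B` -/
def Pos {F : Foliation E M} (B : FBox F) (ψ : ℂ → M) : Prop :=
  ∃ a : ℝ, 0 ≤ a ∧ HasDerivAt (fun z => B.e (ψ z)) ((a : ℂ) • B.v) 0

end Pool.Agent.Helper684.GX.Cov
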